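import Pool.Agent.Q275.Skel.Proj

set_option autoImplicit false

/-!
Finitely square-skeletal normal functors are skeletal.
-/

universe u

namespace Q275.Skel

open CategoryTheory Limits Set Topology Opposite Q178.Functors TopologicalSpace

lemma interior_of_skeletal {A B : CompHaus.{u}} {g : A ⟶ B} (h : IsSkeletalMap g) (U : Set A)
    (hU : IsOpen U) (hne : U.Nonempty) : (interior (closure (g '' U))).Nonempty := by
  by_contra hcon
  have h1 : IsNowhereDense (g '' U) := not_nonempty_iff_eq_empty.1 hcon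
  have h2 : interior (closure (g ⁻¹' (g '' U))) = ∅ := h _ h1
  obtain ⟨x, hx⟩ := hne
  have h3 : x ∈ interior (closure (g ⁻¹' (g '' U))) :=
    mem_interior.2 ⟨U, (subset_preimage_image _ _).trans subset_closure, hU, hx⟩
  rw [h2] at h3
  exact h3

/-- The irreducible projective cover, as an object of the category. -/
lemma exists_cover' (Y : CompHaus.{u}) : ∃ (E : CompHaus.{u}) (b : E ⟶ Y),
    TotallyDisconnectedSpace E ∧ Irr b ∧ HasSections E := by
  obtain ⟨E, _, _, _, _, b, hb, hbs, hirr, hsec⟩ := exists_cover Y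
  exact ⟨CompHaus.of E, ConcreteCategory.ofHom (C := CompHaus.{u}) ⟨b, hb⟩, inferInstance,
    ⟨hbs, hirr⟩, hsec⟩

/-- Open surjections onto spaces with sections. -/
theorem sections_case {F : CompHaus.{u} ⥤ CompHaus.{u}} (hF : IsNormal F)
    (hs : IsFinitelySquareSkeletal F) {X E : CompHaus.{u}} (f : X ⟶ E)
    (hf : Function.Surjective f) (ho : IsOpenMap f) [TotallyDisconnectedSpace E]
    (hE : HasSections E) : IsSkeletalMap (F.map f) := by
  apply skeletal_of
  intro U hU hne
  obtain ⟨Z, c, hZ, hc, -⟩ := exists_cover' X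
  obtain ⟨S, v, O, hO, hκ⟩ := exists_support hF hc U hU hne
  have hsec : ∀ i : S, ∃ s : E → X, Continuous s ∧ (∀ e, f (s e) = e) ∧ ∃ e, s e ∈ O i :=
    fun i => exists_section hE f (ConcreteCategory.hom f).continuous hf ho (O i) (hO i).1 (hO i).2
  choose s hs1 hs2 e he using hsec
  -- the zero-dimensional space
  let X' : CompHaus.{u} := CompHaus.of (S × E)
  let a : X' ⟶ X := ConcreteCategory.ofHom (C := CompHaus.{u})
    ⟨fun p : S × E => s p.1 p.2, continuous_prod_of_discrete_left.2 hs1⟩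
  let g : X' ⟶ E := ConcreteCategory.ofHom (C := CompHaus.{u}) ⟨Prod.snd, continuous_snd⟩
  have hag : a ≫ f = g := by
    ext p
    exact hs2 p.1 p.2
  have hSne : Nonempty S := by
    by_contra hS
    rw [not_nonempty_iff] at hS
    have := hF.empty (CompHaus.of S) hS
    exact this.false v
  have hgs : Function.Surjective g := by
    intro y
    obtain ⟨i⟩ := hSne
    exact ⟨(i, y), rfl⟩
  have hX' : TotallyDisconnectedSpace X' :=
    (inferInstance : TotallyDisconnectedSpace (S × E))
  have hg := zero_case hF hs g hgs isOpenMap_snd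
  have hU' : IsOpen ((F.map a) ⁻¹' U) := hU.preimage (ConcreteCategory.hom (F.map a)).continuous
  have hne' : ((F.map a) ⁻¹' U).Nonempty := by
    let k : CompHaus.of S ⟶ X' := ConcreteCategory.ofHom (C := CompHaus.{u})
      ⟨fun i : S => ((i, e i) : S × E), continuous_of_discreteTopology⟩
    refine ⟨F.map k v, ?_⟩
    have h1 : k ≫ a = fromFin S fun i => s i (e i) := by
      ext i
      rfl
    change F.map a (F.map k v) ∈ U
    rw [map_comp_apply, h1]
    exact hκ _ he
  refine (interior_of_skeletal hg _ hU' hne').mono (interior_mono (closure_mono ?_))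
  rintro _ ⟨w, hw, rfl⟩
  refine ⟨F.map a w, hw, ?_⟩
  rw [map_comp_apply, hag]

/-- The pullback of `f : X → Y` and `b : E → Y`. -/
lemma isClosed_pb {X Y E : CompHaus.{u}} (f : X ⟶ Y) (b : E ⟶ Y) :
    IsClosed {p : X × E | f p.1 = b p.2} :=
  isClosed_eq ((ConcreteCategory.hom f).continuous.comp continuous_fst)
    ((ConcreteCategory.hom b).continuous.comp continuous_snd)

theorem full {F : CompHaus.{u} ⥤ CompHaus.{u}} (hF : IsNormal F)
    (hs : IsFinitelySquareSkeletal F) : IsSkeletalFunctor F := by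
  intro X Y f hf ho
  apply skeletal_of
  intro U hU hne
  obtain ⟨E, b, hEt, hb, hE⟩ := exists_cover' Y
  let P : Set (X × E) := {p | f p.1 = b p.2}
  have hP : IsClosed P := isClosed_pb f b
  have hPc : CompactSpace P := isCompact_iff_compactSpace.1 hP.isCompact
  let X1 : CompHaus.{u} := CompHaus.of P
  let p1 : X1 ⟶ X := ConcreteCategory.ofHom (C := CompHaus.{u})
    ⟨fun p : P => p.1.1, continuous_fst.comp continuous_subtype_val⟩
  let f1 : X1 ⟶ E := ConcreteCategory.ofHom (C := CompHaus.{u})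
    ⟨fun p : P => p.1.2, continuous_snd.comp continuous_subtype_val⟩
  have hcomm : p1 ≫ f = f1 ≫ b := by
    ext p
    exact p.2
  have hp1 : Function.Surjective p1 := by
    intro x
    obtain ⟨e, he⟩ := hb.1 (f x)
    exact ⟨⟨(x, e), he.symm⟩, rfl⟩
  have hf1 : Function.Surjective f1 := by
    intro e
    obtain ⟨x, hx⟩ := hf (b e)
    exact ⟨⟨(x, e), hx⟩, rfl⟩
  have ho1 : IsOpenMap f1 := by
    intro W hW
    rw [isOpen_iff_mem_nhds]
    rintro _ ⟨⟨⟨x, e⟩, hxe⟩, hp, rfl⟩
    change IsOpen (X := P) W at hW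
    obtain ⟨W', hW', rfl⟩ := isOpen_induced_iff.1 hW
    obtain ⟨A, B, hA, hB, hxA, heB, hAB⟩ := isOpen_prod_iff.1 hW' x e hp
    have h1 : IsOpen (b ⁻¹' (f '' A)) := (ho A hA).preimage (ConcreteCategory.hom b).continuous
    refine Filter.mem_of_superset ((hB.inter h1).mem_nhds ⟨heB, x, hxA, hxe⟩) ?_
    rintro e' ⟨he'B, x', hx'A, hx'⟩
    exact ⟨⟨(x', e'), hx'⟩, hAB ⟨hx'A, he'B⟩, rfl⟩
  have hsk := sections_case hF hs f1 hf1 ho1 hE
  have hU1 : IsOpen ((F.map p1) ⁻¹' U) :=
    hU.preimage (ConcreteCategory.hom (F.map p1)).continuous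
  have hne1 : ((F.map p1) ⁻¹' U).Nonempty := by
    obtain ⟨u, hu⟩ := hne
    obtain ⟨w, rfl⟩ := hF.epi p1 hp1 u
    exact ⟨w, hu⟩
  have h1 := interior_of_skeletal hsk _ hU1 hne1
  have h2 := irr_interior hF hb _ isOpen_interior h1
  refine h2.mono (interior_mono ?_)
  have h3 : F.map b '' (closure (F.map f1 '' ((F.map p1) ⁻¹' U))) ⊆
      closure (F.map f '' U) := by
    refine (image_closure_subset_closure_image
      (ConcreteCategory.hom (F.map b)).continuous).trans (closure_mono ?_)
    rintro _ ⟨_, ⟨w, hw, rfl⟩, rfl⟩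
    refine ⟨F.map p1 w, hw, ?_⟩
    exact map_eq_of_comp hcomm w
  exact (image_mono interior_subset).trans h3

end Q275.Skel
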