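import Pool.Agent.Q275.Skel.Zero

set_option autoImplicit false

/-!
Irreducible surjections from zero-dimensional spaces and normal functors.
-/

universe u

namespace Q275.Skel

open CategoryTheory Limits Set Topology Opposite Q178.Functors TopologicalSpace

/-- Irreducible surjections. -/
def Irr {Z X : CompHaus.{u}} (c : Z ⟶ X) : Prop :=
  Function.Surjective c ∧ ∀ C : Set Z, IsClosed C → C ≠ univ → c '' C ≠ univ

lemma Irr.exists_open {Z X : CompHaus.{u}} {c : Z ⟶ X} (hc : Irr c) {G : Set Z}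
    (hG : IsOpen G) (hne : G.Nonempty) : ∃ O : Set X, IsOpen O ∧ O.Nonempty ∧ c ⁻¹' O ⊆ G := by
  have h1 : Gᶜ ≠ univ := by
    intro h
    obtain ⟨x, hx⟩ := hne
    have : x ∈ Gᶜ := h ▸ mem_univ x
    exact this hx
  have h2 := hc.2 Gᶜ hG.isClosed_compl h1
  refine ⟨(c '' Gᶜ)ᶜ, ?_, ?_, ?_⟩
  · exact ((hG.isClosed_compl.isCompact).image
      (ConcreteCategory.hom c).continuous).isClosed.isOpen_compl
  · rw [nonempty_compl]
    exact h2
  · intro z hz
    by_contra hzG
    exact hz ⟨z, hzG, rfl⟩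

/-- The projection to a finite quotient. -/
def pj {Z : CompHaus.{u}} (S : DiscreteQuotient Z) : Z ⟶ CompHaus.of S :=
  ConcreteCategory.ofHom (C := CompHaus.{u}) ⟨S.proj, S.proj_continuous⟩

lemma level {F : CompHaus.{u} ⥤ CompHaus.{u}} (hF : IsNormal F) {Z : CompHaus.{u}}
    [TotallyDisconnectedSpace Z] (U : Set (F.obj Z)) (hU : IsOpen U) (hne : U.Nonempty) :
    ∃ (S : DiscreteQuotient Z) (v : F.obj (CompHaus.of S)), (F.map (pj S)) ⁻¹' {v} ⊆ U := by
  obtain ⟨a, ha⟩ := hne
  obtain ⟨n, -, V, -, haV, hVU⟩ := base_map (J := (DiscreteQuotient Z)ᵒᵈ)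
    (X := Z) (fun n => OrderDual.ofDual n) hF (fun _ _ h => h)
    (fun x y h => DiscreteQuotient.eq_of_forall_proj_eq fun S => h (OrderDual.toDual S)) a U hU ha
    (OrderDual.toDual ⊤)
  refine ⟨OrderDual.ofDual n, F.map (pj _) a, fun b hb => hVU ?_⟩
  have hb' : F.map (pj (OrderDual.ofDual n)) b = F.map (pj (OrderDual.ofDual n)) a := hb
  change F.map (pj (OrderDual.ofDual n)) b ∈ V
  rw [hb']
  exact haV

/-- A map from a finite discrete space. -/
def fromFin {Z : CompHaus.{u}} (S : DiscreteQuotient Z) {X : CompHaus.{u}} (κ : S → X) :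
    CompHaus.of S ⟶ X :=
  ConcreteCategory.ofHom (C := CompHaus.{u}) ⟨κ, continuous_of_discreteTopology⟩

/-- Points of finite support with supports at prescribed places. -/
lemma exists_support {F : CompHaus.{u} ⥤ CompHaus.{u}} (hF : IsNormal F) {Z X : CompHaus.{u}}
    [TotallyDisconnectedSpace Z] {c : Z ⟶ X} (hc : Irr c) (U : Set (F.obj X)) (hU : IsOpen U)
    (hne : U.Nonempty) : ∃ (S : DiscreteQuotient Z) (v : F.obj (CompHaus.of S))
      (O : S → Set X), (∀ i, IsOpen (O i) ∧ (O i).Nonempty) ∧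
        ∀ κ : S → X, (∀ i, κ i ∈ O i) → F.map (fromFin S κ) v ∈ U := by
  have hne' : ((F.map c) ⁻¹' U).Nonempty := by
    obtain ⟨a, ha⟩ := hne
    obtain ⟨b, rfl⟩ := hF.epi c hc.1 a
    exact ⟨b, ha⟩
  obtain ⟨S, v, hv⟩ := level hF ((F.map c) ⁻¹' U)
    (hU.preimage (ConcreteCategory.hom (F.map c)).continuous) hne'
  have h1 : ∀ i : S, ∃ O : Set X, IsOpen O ∧ O.Nonempty ∧ c ⁻¹' O ⊆ (pj S) ⁻¹' {i} := by
    intro i
    apply hc.exists_open
    · exact S.isOpen_preimage {i}
    · obtain ⟨z, hz⟩ := S.proj_surjective i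
      exact ⟨z, hz⟩
  choose O hO1 hO2 hO3 using h1
  refine ⟨S, v, O, fun i => ⟨hO1 i, hO2 i⟩, fun κ hκ => ?_⟩
  choose z hz using fun i : S => hc.1 (κ i)
  have h2 : ∀ i, pj S (z i) = i := by
    intro i
    apply hO3 i
    change c (z i) ∈ O i
    rw [hz i]
    exact hκ i
  have h3 : fromFin S z ≫ pj S = 𝟙 _ := by
    ext i
    exact h2 i
  have h4 : fromFin S z ≫ c = fromFin S κ := by
    ext i
    exact hz i
  have h5 : F.map (fromFin S z) v ∈ (F.map c) ⁻¹' U := by
    apply hv
    change F.map (pj S) (F.map (fromFin S z) v) = v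
    rw [map_comp_apply, h3, F.map_id]
    rfl
  rw [← h4, ← map_comp_apply]
  exact h5

/-- The image of an irreducible surjection from a zero-dimensional space is skeletal; more
precisely the images of nonempty open sets have interior points. -/
lemma irr_interior {F : CompHaus.{u} ⥤ CompHaus.{u}} (hF : IsNormal F) {Z X : CompHaus.{u}}
    [TotallyDisconnectedSpace Z] {c : Z ⟶ X} (hc : Irr c) (U : Set (F.obj Z)) (hU : IsOpen U)
    (hne : U.Nonempty) : (interior (F.map c '' U)).Nonempty := by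
  obtain ⟨S, v, hv⟩ := level hF U hU hne
  have h1 : ∀ i : S, ∃ O : Set X, IsOpen O ∧ O.Nonempty ∧ c ⁻¹' O ⊆ (pj S) ⁻¹' {i} := by
    intro i
    apply hc.exists_open
    · exact S.isOpen_preimage {i}
    · obtain ⟨z, hz⟩ := S.proj_surjective i
      exact ⟨z, hz⟩
  choose O hO1 hO2 hO3 using h1
  choose κ hκ using hO2
  have hfib : ∀ i z, c z = κ i → pj S z = i := by
    intro i z hz
    apply hO3 i
    change c z ∈ O i
    rw [hz]
    exact hκ i
  -- the preimage of the finite set
  have hT : IsClosed (c ⁻¹' range κ) :=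
    ((finite_range κ).isCompact.isClosed).preimage (ConcreteCategory.hom c).continuous
  let D : Square.{u} :=
    { tX := sub Z (c ⁻¹' range κ) hT
      tY := Z
      X := CompHaus.of S
      Y := X
      tf := incl Z (c ⁻¹' range κ) hT
      f := fromFin S κ
      pX := incl Z (c ⁻¹' range κ) hT ≫ pj S
      pY := c
      comm := by
        ext z
        obtain ⟨z, i, hi⟩ := z
        have h2 : pj S z = i := hfib i z hi.symm
        change κ (pj S z) = c z
        rw [h2]
        exact hi }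
  have hκinj : Function.Injective κ := by
    intro i j hij
    obtain ⟨z, hz⟩ := hc.1 (κ i)
    rw [← hfib i z hz, ← hfib j z (hz.trans hij)]
  have hbi := hF.preim D hκinj Subtype.val_injective (by
    intro i
    ext z
    constructor
    · rintro ⟨⟨z, j, hj⟩, hz, rfl⟩
      have hz' : pj S z = i := hz
      have h2 : pj S z = j := hfib j z hj.symm
      change c z = κ i
      rw [← hz', h2]
      exact hj.symm
    · intro hz
      have hz' : c z = κ i := hz
      exact ⟨⟨z, i, hz'.symm⟩, hfib i z hz', rfl⟩)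
  have hsub : (F.map c) ⁻¹' {F.map (fromFin S κ) v} ⊆ U := by
    have h2 := hbi v
    intro w hw
    have h3 : w ∈ (D.map F).pY ⁻¹' {(D.map F).f v} := hw
    rw [← h2] at h3
    obtain ⟨w', hw', rfl⟩ := h3
    apply hv
    change F.map (incl Z (c ⁻¹' range κ) hT ≫ pj S) w' = v at hw'
    exact (map_comp_apply F (incl Z (c ⁻¹' range κ) hT) (pj S) w').trans hw'
  have hopen : IsOpen ((F.map c '' Uᶜ)ᶜ) := ((hU.isClosed_compl.isCompact).image
      (ConcreteCategory.hom (F.map c)).continuous).isClosed.isOpen_compl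
  refine ⟨F.map (fromFin S κ) v, mem_interior.2 ⟨_, ?_, hopen, ?_⟩⟩
  · intro w hw
    obtain ⟨z, rfl⟩ := hF.epi c hc.1 w
    refine ⟨z, ?_, rfl⟩
    by_contra hz
    exact hw ⟨z, hz, rfl⟩
  · rintro ⟨z, hz, hz'⟩
    exact hz (hsub hz')

end Q275.Skel
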