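import Pool.Agent.Q275.Skel.Seq

set_option autoImplicit false

/-!
Finitely square-skeletal normal functors and open surjections which are limits of bicommutative
squares of finite spaces.
-/

universe u

namespace Q275.Skel

open CategoryTheory Limits Set Topology Opposite Q178.Functors

/-- A directed family of finite quotients of `f : X → Y` such that all squares are
bicommutative. -/
structure Good (J : Type u) [PartialOrder J] [IsDirectedOrder J] [Nonempty J]
    {X Y : CompHaus.{u}} (f : X ⟶ Y) where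
  /-- the finite quotients of `X` -/
  SX : J → DiscreteQuotient X
  /-- the finite quotients of `Y` -/
  SY : J → DiscreteQuotient Y
  hX : Antitone SX
  hY : Antitone SY
  sepX : ∀ x y : X, (∀ n, pr SX n x = pr SX n y) → x = y
  sepY : ∀ x y : Y, (∀ n, pr SY n x = pr SY n y) → x = y
  le : ∀ (n : J) (x x' : X), (SX n).toSetoid x x' → (SY n).toSetoid (f x) (f x')
  bic : ∀ (n : J) (x : X) (y : Y), (SY n).toSetoid (f x) y → ∃ x', f x' = y ∧
    (SX n).toSetoid x x'

namespace Good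

variable {J : Type u} [PartialOrder J] [IsDirectedOrder J] [Nonempty J]
variable {X Y : CompHaus.{u}} {f : X ⟶ Y} (G : Good J f)

/-- The map of the finite quotients. -/
def fn (n : J) : Qt G.SX n ⟶ Qt G.SY n :=
  ConcreteCategory.ofHom (C := CompHaus.{u})
    ⟨DiscreteQuotient.map ⟨f, (ConcreteCategory.hom f).continuous⟩ (G.le n),
      DiscreteQuotient.map_continuous _⟩

lemma pr_fn (n : J) : pr G.SX n ≫ G.fn n = f ≫ pr G.SY n := by
  ext x
  rfl

/-- The square of two finite levels. -/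
def sq {m n : J} (h : n ≤ m) : Square.{u} where
  tX := Qt G.SX m
  tY := Qt G.SY m
  X := Qt G.SX n
  Y := Qt G.SY n
  tf := G.fn m
  f := G.fn n
  pX := tr G.hX h
  pY := tr G.hY h
  comm := by
    ext x
    obtain ⟨x, rfl⟩ := pr_surjective G.SX _ x
    rfl

/-- The trivial square on the transition map of `Y`. -/
def sqY {m n : J} (h : n ≤ m) : Square.{u} where
  tX := Qt G.SY m
  tY := Qt G.SY n
  X := Qt G.SY m
  Y := Qt G.SY n
  tf := tr G.hY h
  f := tr G.hY h
  pX := 𝟙 _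
  pY := 𝟙 _
  comm := by simp

lemma sq_finite {m n : J} (h : n ≤ m) : (G.sq h).FiniteSpaces := by
  refine ⟨?_, ?_, ?_, ?_⟩
  · exact (inferInstance : Finite (G.SX m))
  · exact (inferInstance : Finite (G.SY m))
  · exact (inferInstance : Finite (G.SX n))
  · exact (inferInstance : Finite (G.SY n))

lemma sqY_finite {m n : J} (h : n ≤ m) : (G.sqY h).FiniteSpaces := by
  refine ⟨?_, ?_, ?_, ?_⟩
  · exact (inferInstance : Finite (G.SY m))
  · exact (inferInstance : Finite (G.SY n))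
  · exact (inferInstance : Finite (G.SY m))
  · exact (inferInstance : Finite (G.SY n))

lemma fn_surjective (hf : Function.Surjective f) (n : J) : Function.Surjective (G.fn n) := by
  intro y
  obtain ⟨y, rfl⟩ := pr_surjective G.SY _ y
  obtain ⟨x, rfl⟩ := hf y
  exact ⟨pr G.SX n x, rfl⟩

lemma sq_surjections (hf : Function.Surjective f) {m n : J} (h : n ≤ m) :
    (G.sq h).Surjections :=
  ⟨G.fn_surjective hf m, G.fn_surjective hf n, tr_surjective _ G.hX h, tr_surjective _ G.hY h⟩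

lemma sqY_surjections {m n : J} (h : n ≤ m) : (G.sqY h).Surjections :=
  ⟨tr_surjective _ G.hY h, tr_surjective _ G.hY h, fun x => ⟨x, rfl⟩, fun x => ⟨x, rfl⟩⟩

lemma sq_skeletal {m n : J} (h : n ≤ m) : (G.sq h).Skeletal := by
  intro x U hU
  have hx : x ∈ U := mem_of_mem_nhds hU
  refine ⟨{G.fn n x}, ?_, ⟨_, rfl⟩, ?_, ?_⟩
  · exact isOpen_discrete (α := G.SY n) _
  · rintro y rfl
    exact ⟨x, hx, rfl⟩
  · intro y hy
    change Qt G.SX n at x
    change Qt G.SY m at y
    change tr G.hY h y = G.fn n x at hy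
    obtain ⟨x, rfl⟩ := pr_surjective G.SX n x
    obtain ⟨y, rfl⟩ := pr_surjective G.SY m y
    have hy1 : (G.SY n).proj y = (G.SY n).proj (f x) := hy
    have hy2 : (G.SY n).toSetoid (f x) y := (G.SY n).symm _ _ (Quotient.eq.1 hy1)
    obtain ⟨x', hx', hxx⟩ := G.bic n x y hy2
    refine ⟨pr G.SX m x', ?_, ?_⟩
    · have h1 : pr G.SX n x' = pr G.SX n x := Quotient.sound ((G.SX n).symm _ _ hxx)
      have h2 : tr G.hX h (pr G.SX m x') = pr G.SX n x' := rfl
      change tr G.hX h (pr G.SX m x') ∈ U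
      rw [h2, h1]
      exact hx
    · have h1 : G.fn m (pr G.SX m x') = pr G.SY m (f x') := rfl
      change G.fn m (pr G.SX m x') = pr G.SY m y
      rw [h1, hx']

lemma sqY_skeletal {m n : J} (h : n ≤ m) : (G.sqY h).Skeletal := by
  intro x U hU
  have hx : x ∈ U := mem_of_mem_nhds hU
  refine ⟨{tr G.hY h x}, ?_, ⟨_, rfl⟩, ?_, ?_⟩
  · exact isOpen_discrete (α := G.SY n) _
  · rintro y rfl
    exact ⟨x, hx, rfl⟩
  · intro y hy
    exact ⟨x, hx, hy.symm⟩

end Good

/-- A sufficient condition for skeletal maps. -/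
lemma skeletal_of {A B : CompHaus.{u}} (g : A ⟶ B)
    (h : ∀ U : Set A, IsOpen U → U.Nonempty → (interior (closure (g '' U))).Nonempty) :
    IsSkeletalMap g := by
  intro T hT
  by_contra hcon
  have hne : (interior (closure (g ⁻¹' T))).Nonempty := nonempty_iff_ne_empty.2 hcon
  have h1 := h _ isOpen_interior hne
  have h2 : g '' (interior (closure (g ⁻¹' T))) ⊆ closure T := by
    rintro _ ⟨x, hx, rfl⟩
    have h3 := (ConcreteCategory.hom g).continuous.closure_preimage_subset T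
      (interior_subset hx)
    exact h3
  have h3 : interior (closure (g '' (interior (closure (g ⁻¹' T))))) ⊆ interior (closure T) :=
    interior_mono (closure_minimal h2 isClosed_closure)
  have h4 : interior (closure T) = ∅ := hT
  rw [h4] at h3
  exact h1.ne_empty (subset_empty_iff.1 h3)

lemma map_eq_of_comp {F : CompHaus.{u} ⥤ CompHaus.{u}} {A B B' C : CompHaus.{u}} {g : A ⟶ B}
    {h : B ⟶ C} {g' : A ⟶ B'} {h' : B' ⟶ C} (e : g ≫ h = g' ≫ h') (a : F.obj A) :
    F.map h (F.map g a) = F.map h' (F.map g' a) := by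
  rw [map_comp_apply, map_comp_apply, e]

theorem main {J : Type u} [PartialOrder J] [IsDirectedOrder J] [Nonempty J]
    {F : CompHaus.{u} ⥤ CompHaus.{u}} (hF : IsNormal F)
    (hs : IsFinitelySquareSkeletal F) {X Y : CompHaus.{u}} {f : X ⟶ Y} (G : Good J f)
    (hf : Function.Surjective f) : IsSkeletalMap (F.map f) := by
  apply skeletal_of
  rintro U hU ⟨a, ha⟩
  obtain ⟨j₀⟩ := (inferInstance : Nonempty J)
  obtain ⟨n, -, Un, hUn, haUn, hUnU⟩ := base_map G.SX hF G.hX G.sepX a U hU ha j₀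
  obtain ⟨V0, hV0o, hV0ne, hV0, -⟩ := hs (G.sq le_rfl) (G.sq_finite _)
    (G.sq_surjections hf (le_refl n)) (G.sq_skeletal _) (F.map (pr G.SX n) a) Un
    (hUn.mem_nhds haUn)
  change Set (F.obj (Qt G.SY n)) at V0
  change V0 ⊆ F.map (G.fn n) '' Un at hV0
  let O : Set (F.obj Y) := (F.map (pr G.SY n)) ⁻¹' V0
  have hOo : IsOpen O := hV0o.preimage (ConcreteCategory.hom (F.map (pr G.SY n))).continuous
  have hOne : O.Nonempty := by
    obtain ⟨v, hv⟩ := hV0ne
    obtain ⟨y, hy⟩ := hF.epi (pr G.SY n) (pr_surjective _ _) v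
    exact ⟨y, by change F.map (pr G.SY n) y ∈ V0; rw [hy]; exact hv⟩
  refine hOne.mono ?_
  apply interior_maximal _ hOo
  intro y hy
  by_contra hyc
  obtain ⟨m, hm, V', hV', hyV', hV'N⟩ := base_map G.SY hF G.hY G.sepY y
    (O ∩ (closure (F.map f '' U))ᶜ) (hOo.inter isClosed_closure.isOpen_compl) ⟨hy, hyc⟩ n
  -- an open set of the image of `V'`
  obtain ⟨V, hVo, ⟨w, hw⟩, hV1, -⟩ := hs (G.sqY hm) (G.sqY_finite _)
    (G.sqY_surjections _) (G.sqY_skeletal _) (F.map (pr G.SY m) y) V' (hV'.mem_nhds hyV')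
  change Set (F.obj (Qt G.SY n)) at V
  change V ⊆ F.map (tr G.hY hm) '' V' at hV1
  have hwV0 : w ∈ V0 := by
    obtain ⟨w', hw', rfl⟩ := hV1 hw
    obtain ⟨b', rfl⟩ := hF.epi (pr G.SY m) (pr_surjective _ _) w'
    have h1 : F.map (pr G.SY n) b' ∈ V0 := (hV'N hw').1
    rw [map_comp_apply]
    exact h1
  obtain ⟨x, hx, rfl⟩ := hV0 hwV0
  have hU' : IsOpen (Un ∩ (F.map (G.fn n)) ⁻¹' V) :=
    hUn.inter (hVo.preimage (ConcreteCategory.hom (F.map (G.fn n))).continuous)
  obtain ⟨V3, -, ⟨v, hv⟩, hV2, hV3⟩ := hs (G.sq hm) (G.sq_finite _)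
    (G.sq_surjections hf _) (G.sq_skeletal _) x (Un ∩ (F.map (G.fn n)) ⁻¹' V)
    (hU'.mem_nhds ⟨hx, hw⟩)
  obtain ⟨x', ⟨-, hx'V⟩, rfl⟩ := hV2 hv
  obtain ⟨w', hw', e⟩ := hV1 hx'V
  have hw3 : w' ∈ (F.map (tr G.hY hm)) ⁻¹' V3 := by
    change F.map (tr G.hY hm) w' ∈ V3
    rw [e]
    exact hv
  obtain ⟨xm, ⟨hxm, -⟩, hxm'⟩ := hV3 hw3
  obtain ⟨z, rfl⟩ := hF.epi (pr G.SX m) (pr_surjective _ _) xm
  have hzU : z ∈ U := by
    apply hUnU
    change F.map (tr G.hX hm) (F.map (pr G.SX m) z) ∈ Un at hxm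
    rw [map_comp_apply] at hxm
    exact hxm
  have hzV : F.map (pr G.SY m) (F.map f z) ∈ V' := by
    rw [map_eq_of_comp (G.pr_fn m).symm z]
    change F.map (G.fn m) (F.map (pr G.SX m) z) = w' at hxm'
    rw [hxm']
    exact hw'
  exact (hV'N hzV).2 (subset_closure ⟨z, hzU, rfl⟩)

end Q275.Skel
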