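import Pool.Agent.Q275.Skel.Irr

set_option autoImplicit false

/-!
Irreducible projective covers and sections of open maps.
-/

universe u

namespace Q275.Skel

open Set Topology

/-- A discrete copy of a type. -/
def Dis (Y : Type u) : Type u := Y

instance (Y : Type u) : TopologicalSpace (Dis Y) := ⊥

instance (Y : Type u) : DiscreteTopology (Dis Y) := ⟨rfl⟩

/-- Every surjection onto the space has a section. -/
def HasSections (E : Type u) [TopologicalSpace E] : Prop :=
  ∀ (C : Type u) [TopologicalSpace C] [CompactSpace C] [T2Space C] (h : C → E), Continuous h →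
    Function.Surjective h → ∃ s : E → C, Continuous s ∧ ∀ e, h (s e) = e

lemma exists_cover (Y : Type u) [TopologicalSpace Y] [CompactSpace Y] [T2Space Y] :
    ∃ (E : Type u) (_ : TopologicalSpace E) (_ : CompactSpace E) (_ : T2Space E)
      (_ : TotallyDisconnectedSpace E) (b : E → Y), Continuous b ∧ Function.Surjective b ∧
      (∀ C : Set E, IsClosed C → C ≠ univ → b '' C ≠ univ) ∧ HasSections E := by
  -- the Stone–Čech compactification of the discrete space
  let π : StoneCech (Dis Y) → Y :=
    stoneCechExtend (g := (fun y : Dis Y => (y : Y))) continuous_of_discreteTopology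
  have hπ : Continuous π := continuous_stoneCechExtend _
  have hπs : Function.Surjective π := by
    intro y
    exact ⟨stoneCechUnit (α := Dis Y) y, stoneCechExtend_stoneCechUnit (α := Dis Y)
      continuous_of_discreteTopology y⟩
  have hproj : CompactT2.Projective.{u} (StoneCech (Dis Y)) := StoneCech.projective
  have hED : ExtremallyDisconnected (StoneCech (Dis Y)) := hproj.extremallyDisconnected
  obtain ⟨E, hE, hsurj, hmin⟩ := exists_compact_surjective_zorn_subset hπ hπs
  let b : E → Y := fun e => π e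
  have hb : Continuous b := hπ.comp continuous_subtype_val
  have hbs : Function.Surjective b := by
    intro y
    have : y ∈ π '' E := hsurj ▸ mem_univ y
    obtain ⟨e, he, h⟩ := this
    exact ⟨⟨e, he⟩, h⟩
  have hirr : ∀ C : Set E, IsClosed C → C ≠ univ → b '' C ≠ univ := fun C hC hne => hmin C hne hC
  obtain ⟨g, hg, hbg⟩ := hproj (f := π) (g := b) hπ hb hbs
  have hid : ∀ e : E, g e = e := by
    intro e
    by_contra hne
    obtain ⟨N, N', hN, hN', heN, heN', hdis⟩ := t2_separation (Ne.symm hne)
    have hG : IsOpen (N ∩ (fun e : E => g e) ⁻¹' N') :=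
      hN.inter (hN'.preimage (hg.comp continuous_subtype_val))
    have h1 : (N ∩ (fun e : E => g e) ⁻¹' N')ᶜ ≠ univ := by
      intro h
      have : e ∈ (N ∩ (fun e : E => g e) ⁻¹' N')ᶜ := h ▸ mem_univ e
      exact this ⟨heN, heN'⟩
    have h2 := hirr _ hG.isClosed_compl h1
    obtain ⟨y, hy⟩ := nonempty_compl.2 h2
    obtain ⟨e', rfl⟩ := hbs y
    have h3 : ∀ e'' : E, b e'' = b e' → e'' ∈ N ∩ (fun e : E => g e) ⁻¹' N' := by
      intro e'' h
      by_contra h'
      exact hy ⟨e'', h', h⟩
    have h4 := h3 e' rfl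
    have h5 : b (g e') = b e' := congrFun hbg e'
    have h6 := h3 (g e') h5
    exact (Set.disjoint_left.1 hdis h6.1) h4.2
  refine ⟨E, inferInstance, hE, inferInstance, inferInstance, b, hb, hbs, hirr, ?_⟩
  intro C _ _ _ h hh hhs
  obtain ⟨l, hl, hhl⟩ := hproj (f := g) (g := h) hg hh hhs
  refine ⟨fun e => l e, hl.comp continuous_subtype_val, fun e => ?_⟩
  rw [← hid e]
  have := congrFun hhl e
  simp only [Function.comp] at this
  rw [hid e]
  exact this.trans (hid e)

/-- Sections of open maps through a given open set. -/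
lemma exists_section {E X : Type u} [TopologicalSpace E] [CompactSpace E] [T2Space E]
    [TotallyDisconnectedSpace E] (hE : HasSections E) [TopologicalSpace X] [CompactSpace X]
    [T2Space X] (f : X → E) (hf : Continuous f) (hs : Function.Surjective f) (ho : IsOpenMap f)
    (O : Set X) (hO : IsOpen O) (hne : O.Nonempty) :
    ∃ s : E → X, Continuous s ∧ (∀ e, f (s e) = e) ∧ ∃ e, s e ∈ O := by
  obtain ⟨x, hx⟩ := hne
  obtain ⟨t, ht, htc, htO⟩ := exists_mem_nhds_isClosed_subset (hO.mem_nhds hx)
  obtain ⟨B, hB, hxB, hBt⟩ := compact_exists_isClopen_in_isOpen (ho _ (isOpen_interior (s := t)))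
    ⟨x, mem_interior_iff_mem_nhds.2 ht, rfl⟩
  let C : Set X := (t ∩ f ⁻¹' B) ∪ f ⁻¹' Bᶜ
  have hC : IsClosed C := (htc.inter (hB.1.preimage hf)).union (hB.compl.1.preimage hf)
  have hCc : CompactSpace C := isCompact_iff_compactSpace.1 hC.isCompact
  have hsurj : Function.Surjective (fun c : C => f c) := by
    intro e
    by_cases he : e ∈ B
    · obtain ⟨x', hx', rfl⟩ := hBt he
      exact ⟨⟨x', Or.inl ⟨interior_subset hx', he⟩⟩, rfl⟩
    · obtain ⟨x', rfl⟩ := hs e
      exact ⟨⟨x', Or.inr he⟩, rfl⟩
  obtain ⟨s, hs1, hs2⟩ := hE C (fun c : C => f c) (hf.comp continuous_subtype_val) hsurj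
  refine ⟨fun e => s e, continuous_subtype_val.comp hs1, hs2, f x, htO ?_⟩
  have h1 := (s (f x)).2
  rcases h1 with h1 | h1
  · exact h1.1
  · exfalso
    have h2 : f (s (f x)) = f x := hs2 (f x)
    apply h1
    rw [h2]
    exact hxB

end Q275.Skel
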