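import Pool.Agent.Q178.Functors.Cont

set_option autoImplicit false

/-!
Directed families of finite quotients of compact spaces and functors which preserve limits.
-/

universe u

namespace Q275.Skel

open CategoryTheory Limits Set Topology Opposite Q178.Functors

lemma isClosed_fib {A B : CompHaus.{u}} (g : A ⟶ B) (b : B) : IsClosed {a | g a = b} :=
  isClosed_eq (ConcreteCategory.hom g).continuous continuous_const

lemma map_comp_apply (F : CompHaus.{u} ⥤ CompHaus.{u}) {A B C : CompHaus.{u}} (f : A ⟶ B)
    (g : B ⟶ C) (a : F.obj A) : F.map g (F.map f a) = F.map (f ≫ g) a := by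
  rw [F.map_comp]
  rfl

section seq

variable {J : Type u} [PartialOrder J] [IsDirectedOrder J] [Nonempty J]
variable {X : CompHaus.{u}} (S : J → DiscreteQuotient X)

/-- The finite quotient, as an object of the category. -/
abbrev Qt (n : J) : CompHaus.{u} := CompHaus.of (S n)

/-- The projection to the finite quotient. -/
def pr (n : J) : X ⟶ Qt S n :=
  ConcreteCategory.ofHom (C := CompHaus.{u}) ⟨(S n).proj, (S n).proj_continuous⟩

variable {S} in
/-- The transition maps. -/
def tr (hS : Antitone S) {m n : J} (h : n ≤ m) : Qt S m ⟶ Qt S n :=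
  ConcreteCategory.ofHom (C := CompHaus.{u})
    ⟨DiscreteQuotient.ofLE (hS h), DiscreteQuotient.ofLE_continuous _⟩

omit [PartialOrder J] [IsDirectedOrder J] [Nonempty J] in
lemma pr_surjective (n : J) : Function.Surjective (pr S n) := (S n).proj_surjective

omit [IsDirectedOrder J] [Nonempty J] in
lemma pr_tr (hS : Antitone S) {m n : J} (h : n ≤ m) : pr S m ≫ tr hS h = pr S n := rfl

omit [IsDirectedOrder J] [Nonempty J] in
lemma tr_surjective (hS : Antitone S) {m n : J} (h : n ≤ m) :
    Function.Surjective (tr hS h) := by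
  intro y
  obtain ⟨x, rfl⟩ := pr_surjective S n y
  exact ⟨pr S m x, rfl⟩

/-- The inverse system of the finite quotients. -/
def diag (hS : Antitone S) : Jᵒᵖ ⥤ CompHaus.{u} where
  obj j := Qt S j.unop
  map {i j} g := tr hS (m := i.unop) (n := j.unop) (leOfHom g.unop)
  map_id j := by
    ext x
    obtain ⟨x, rfl⟩ := pr_surjective S _ x
    rfl
  map_comp f g := by
    ext x
    obtain ⟨x, rfl⟩ := pr_surjective S _ x
    rfl

/-- The cone of the projections. -/
def cone (hS : Antitone S) : Cone (diag S hS) where
  pt := X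
  π :=
    { app := fun j => pr S j.unop
      naturality := fun i j g => by
        ext x
        rfl }

lemma cone_isLimit (hS : Antitone S) (hsep : ∀ x y : X, (∀ n, pr S n x = pr S n y) → x = y) :
    Nonempty (IsLimit (cone S hS)) := by
  have h1 : Nonempty (IsLimit ((forget CompHaus.{u}).mapCone (cone S hS))) := by
    rw [Types.isLimit_iff]
    intro s hs
    have hs' : ∀ n m : J, ∀ h : n ≤ m, tr hS h (s (op m)) = s (op n) := by
      intro n m h
      exact hs (homOfLE h).op
    have hne : (⋂ n, (pr S n) ⁻¹' {s (op n)}).Nonempty := by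
      apply IsCompact.nonempty_iInter_of_directed_nonempty_isCompact_isClosed
      · intro i j
        obtain ⟨k, hik, hjk⟩ := exists_ge_ge i j
        refine ⟨k, fun x hx => ?_, fun x hx => ?_⟩
        · have hx' : pr S k x = s (op k) := hx
          have := hs' i k hik
          rw [← hx'] at this
          exact this
        · have hx' : pr S k x = s (op k) := hx
          have := hs' j k hjk
          rw [← hx'] at this
          exact this
      · intro n
        obtain ⟨x, hx⟩ := pr_surjective S n (s (op n))
        exact ⟨x, hx⟩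
      · intro n
        exact (isClosed_fib (pr S n) _).isCompact
      · intro n
        exact isClosed_fib (pr S n) _
    obtain ⟨x, hx⟩ := hne
    rw [mem_iInter] at hx
    refine ⟨x, fun j => hx j.unop, fun y hy => ?_⟩
    apply hsep
    intro n
    exact (hy (op n)).trans (hx n).symm
  obtain ⟨h1⟩ := h1
  exact ⟨isLimitOfReflects (forget CompHaus.{u}) h1⟩

/-- A continuous functor sends the projections to a separating family. -/
lemma sep_map {F : CompHaus.{u} ⥤ CompHaus.{u}} (hF : IsNormal F) (hS : Antitone S)
    (hsep : ∀ x y : X, (∀ n, pr S n x = pr S n y) → x = y) (a b : F.obj X)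
    (h : ∀ n, F.map (pr S n) a = F.map (pr S n) b) : a = b := by
  obtain ⟨hl⟩ := cone_isLimit S hS hsep
  have := hF.cont J
  have hl' := isLimitOfPreserves F hl
  exact point_ext hl' (fun j => h j.unop)

/-- The preimages of the open sets of the `F (X_n)` form a base of `F X`. -/
lemma base_map {F : CompHaus.{u} ⥤ CompHaus.{u}} (hF : IsNormal F) (hS : Antitone S)
    (hsep : ∀ x y : X, (∀ n, pr S n x = pr S n y) → x = y) (a : F.obj X) (U : Set (F.obj X))
    (hU : IsOpen U) (ha : a ∈ U) (n₀ : J) : ∃ n, n₀ ≤ n ∧ ∃ V : Set (F.obj (Qt S n)), IsOpen V ∧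
      F.map (pr S n) a ∈ V ∧ (F.map (pr S n)) ⁻¹' V ⊆ U := by
  by_contra hcon
  have hmono : ∀ {n m : J}, n ≤ m → ∀ {b : F.obj X},
      F.map (pr S m) b = F.map (pr S m) a → F.map (pr S n) b = F.map (pr S n) a := by
    intro n m h b e
    have h2 := congrArg (F.map (tr hS h)) e
    rw [map_comp_apply, map_comp_apply] at h2
    exact h2
  have hne : (⋂ n, {b | b ∉ U ∧ F.map (pr S n) b = F.map (pr S n) a}).Nonempty := by
    apply IsCompact.nonempty_iInter_of_directed_nonempty_isCompact_isClosed
    · intro i j
      obtain ⟨k, hik, hjk⟩ := exists_ge_ge i j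
      exact ⟨k, fun x hx => ⟨hx.1, hmono hik hx.2⟩, fun x hx => ⟨hx.1, hmono hjk hx.2⟩⟩
    · intro n
      by_contra hem
      obtain ⟨k, hik, hjk⟩ := exists_ge_ge n₀ n
      apply hcon
      refine ⟨k, hik, ((F.map (pr S k)) '' Uᶜ)ᶜ,
        ((hU.isClosed_compl.isCompact).image
          (F.map (pr S k)).hom.hom.continuous).isClosed.isOpen_compl, ?_, ?_⟩
      · rintro ⟨b, hb, hb'⟩
        exact hem ⟨b, hb, hmono hjk hb'⟩
      · intro b hb
        by_contra hbU
        exact hb ⟨b, hbU, rfl⟩
    · intro n
      exact ((hU.isClosed_compl).inter (isClosed_fib (F.map (pr S n)) _)).isCompact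
    · intro n
      exact (hU.isClosed_compl).inter (isClosed_fib (F.map (pr S n)) _)
  obtain ⟨b, hb⟩ := hne
  rw [mem_iInter] at hb
  apply (hb n₀).1
  have : b = a := sep_map S hF hS hsep b a fun n => (hb n).2
  rw [this]
  exact ha

end seq

end Q275.Skel
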