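import Pool.Agent.Q275.Skel.Main

set_option autoImplicit false

/-!
Open surjections of zero-dimensional compact spaces are limits of bicommutative squares of
finite spaces; so their images under a finitely square-skeletal normal functor are skeletal.
-/

universe u

namespace Q275.Skel

open CategoryTheory Limits Set Topology Opposite Q178.Functors TopologicalSpace

section labels

variable {X Y : Type u} [TopologicalSpace X] [TopologicalSpace Y] (f : X → Y)

/-- The label of a point of `X`. -/
def lab (n : Finset (Clopens X)) (x : X) : n → Prop := fun i => x ∈ i.1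

/-- The label of a point of `Y`. -/
def labY (n : Finset (Clopens X)) (y : Y) : Set (n → Prop) := lab n '' (f ⁻¹' {y})

lemma isClopen_lab (n : Finset (Clopens X)) (v : n → Prop) : IsClopen {x | lab n x = v} := by
  have h : {x | lab n x = v} = ⋂ i : n, {x | x ∈ i.1 ↔ v i} := by
    ext x
    simp only [mem_ofPred_eq, mem_iInter, lab, funext_iff, eq_iff_iff]
  rw [h]
  apply isClopen_iInter_of_finite
  intro i
  by_cases hv : v i
  · have : {x | x ∈ i.1 ↔ v i} = (i.1 : Set X) := by
      ext x
      simp [hv]
    rw [this]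
    exact i.1.isClopen
  · have : {x | x ∈ i.1 ↔ v i} = (i.1 : Set X)ᶜ := by
      ext x
      simp [hv]
    rw [this]
    exact i.1.isClopen.compl

lemma isClopen_labY [CompactSpace X] [T2Space Y] (hf : Continuous f) (ho : IsOpenMap f)
    (n : Finset (Clopens X)) (T : Set (n → Prop)) :
    IsClopen {y | labY f n y = T} := by
  have h : {y | labY f n y = T} =
      ⋂ v : n → Prop, {y | y ∈ f '' {x | lab n x = v} ↔ v ∈ T} := by
    ext y
    simp only [mem_ofPred_eq, mem_iInter, labY, Set.ext_iff]
    constructor
    · intro h v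
      rw [← h v]
      constructor
      · rintro ⟨x, hx, hxy⟩
        exact ⟨x, hxy, hx⟩
      · rintro ⟨x, hxy, hx⟩
        exact ⟨x, hx, hxy⟩
    · intro h v
      rw [← h v]
      constructor
      · rintro ⟨x, hx, hxy⟩
        exact ⟨x, hxy, hx⟩
      · rintro ⟨x, hxy, hx⟩
        exact ⟨x, hx, hxy⟩
  rw [h]
  apply isClopen_iInter_of_finite
  intro v
  have hc : IsClopen (f '' {x | lab n x = v}) :=
    ⟨(((isClopen_lab n v).1.isCompact).image hf).isClosed, ho _ (isClopen_lab n v).2⟩
  by_cases hv : v ∈ T
  · have : {y | y ∈ f '' {x | lab n x = v} ↔ v ∈ T} = f '' {x | lab n x = v} := by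
      ext x
      simp [hv]
    rw [this]
    exact hc
  · have : {y | y ∈ f '' {x | lab n x = v} ↔ v ∈ T} = (f '' {x | lab n x = v})ᶜ := by
      ext x
      simp only [hv, iff_false]
      rfl
    rw [this]
    exact hc.compl

lemma lab_mono {m n : Finset (Clopens X)} (h : n ≤ m)
    {x x' : X} (e : lab m x = lab m x') : lab n x = lab n x' := by
  funext i
  exact congrFun e ⟨i.1, h i.2⟩

lemma labY_mono {Y : Type u} (f : X → Y) {m n : Finset (Clopens X)}
    (h : n ≤ m) {y y' : Y} (e : labY f m y = labY f m y') :
    labY f n y = labY f n y' := by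
  have key : ∀ y y' : Y, labY f m y = labY f m y' → labY f n y ⊆ labY f n y' := by
    rintro y y' e _ ⟨x, hx, rfl⟩
    have h1 : lab m x ∈ labY f m y := ⟨x, hx, rfl⟩
    rw [e] at h1
    obtain ⟨x', hx', e'⟩ := h1
    exact ⟨x', hx', lab_mono h e'⟩
  exact Subset.antisymm (key y y' e) (key y' y e.symm)

end labels

lemma sep_of (Z : Type u) [TopologicalSpace Z] [CompactSpace Z] [T2Space Z]
    [TotallyDisconnectedSpace Z] {x y : Z} (h : x ≠ y) : ∃ U : Set Z, IsClopen U ∧ x ∈ U ∧
      y ∉ U := by
  obtain ⟨U, hU, h1, h2⟩ := exists_isClopen_of_totally_separated h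
  exact ⟨U, hU, h1, h2⟩

/-- The good family of an open surjection. -/
noncomputable def good {X Y : CompHaus.{u}} (f : X ⟶ Y)
    (hf : Function.Surjective f) (ho : IsOpenMap f)
    [TotallyDisconnectedSpace X] [TotallyDisconnectedSpace Y] : Good (Finset (Clopens X)) f where
  SX n :=
    { toSetoid := Setoid.ker (fun x => (lab n x, labY f n (f x)))
      isOpen_setOfPred_rel := by
        intro x
        have h1 := (isClopen_lab n (lab n x)).2
        have h2 := ((isClopen_labY f (ConcreteCategory.hom f).continuous ho n
          (labY f n (f x))).2).preimage (ConcreteCategory.hom f).continuous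
        convert h1.inter h2 using 1
        ext x'
        constructor
        · intro h
          have h' : (lab n x, labY f n (f x)) = (lab n x', labY f n (f x')) := h
          exact ⟨(congrArg Prod.fst h').symm, (congrArg Prod.snd h').symm⟩
        · rintro ⟨h3, h4⟩
          change (lab n x, labY f n (f x)) = (lab n x', labY f n (f x'))
          exact Prod.ext (Eq.symm h3) (Eq.symm h4) }
  SY n :=
    { toSetoid := Setoid.ker (labY f n)
      isOpen_setOfPred_rel := by
        intro y
        have h2 := (isClopen_labY f (ConcreteCategory.hom f).continuous ho n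
          (labY f n y)).2
        convert h2 using 1
        ext y'
        constructor
        · intro h
          exact Eq.symm (show labY f n y = labY f n y' from h)
        · intro h
          exact Eq.symm (show labY f n y' = labY f n y from h) }
  hX := by
    intro n m h x x' e
    have e' : (lab m x, labY f m (f x)) = (lab m x', labY f m (f x')) := e
    change (lab n x, labY f n (f x)) = (lab n x', labY f n (f x'))
    exact Prod.ext (lab_mono h (congrArg Prod.fst e'))
      (labY_mono f h (congrArg Prod.snd e'))
  hY := by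
    intro n m h y y' e
    exact labY_mono f h e
  sepX := by
    intro x x' h
    by_contra hne
    obtain ⟨U, hU, hxU, hx'U⟩ := sep_of _ hne
    have h1 : (lab {⟨U, hU⟩} x, labY f {⟨U, hU⟩} (f x)) =
      (lab {⟨U, hU⟩} x', labY f {⟨U, hU⟩} (f x')) := Quotient.exact (h {⟨U, hU⟩})
    have h2 := congrFun (congrArg Prod.fst h1) ⟨⟨U, hU⟩, Finset.mem_singleton_self _⟩
    have h4 : x ∈ U ↔ x' ∈ U := iff_of_eq h2
    exact hx'U (h4.1 hxU)
  sepY := by
    intro y y' h
    by_contra hne
    obtain ⟨U, hU, hyU, hy'U⟩ := sep_of _ hne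
    let A : Clopens X := ⟨f ⁻¹' U, hU.preimage (ConcreteCategory.hom f).continuous⟩
    have h1 : labY f {A} y = labY f {A} y' := Quotient.exact (h {A})
    obtain ⟨x, rfl⟩ := hf y
    have h2 : lab {A} x ∈ labY f {A} (f x) := ⟨x, rfl, rfl⟩
    rw [h1] at h2
    obtain ⟨x', rfl, e⟩ := h2
    have h3 : (x' ∈ A) = (x ∈ A) := congrFun e ⟨A, Finset.mem_singleton_self _⟩
    have h4 : f x' ∈ U ↔ f x ∈ U := iff_of_eq h3
    exact hy'U (h4.2 hyU)
  le n x x' h := by
    have e' : (lab n x, labY f n (f x)) = (lab n x', labY f n (f x')) := h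
    exact congrArg Prod.snd e'
  bic n x y h := by
    have h1 : labY f n (f x) = labY f n y := h
    have h2 : lab n x ∈ labY f n (f x) := ⟨x, rfl, rfl⟩
    rw [h1] at h2
    obtain ⟨x', hx', e⟩ := h2
    refine ⟨x', hx', ?_⟩
    change (lab n x, labY f n (f x)) = (lab n x', labY f n (f x'))
    have hx'' : f x' = y := hx'
    rw [hx'', h1, e]

/-- **The zero-dimensional case.** -/
theorem zero_case {F : CompHaus.{u} ⥤ CompHaus.{u}} (hF : IsNormal F)
    (hs : IsFinitelySquareSkeletal F) {X Y : CompHaus.{u}} (f : X ⟶ Y)
    (hf : Function.Surjective f) (ho : IsOpenMap f) [TotallyDisconnectedSpace X]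
    [TotallyDisconnectedSpace Y] : IsSkeletalMap (F.map f) :=
  main hF hs (good f hf ho) hf

end Q275.Skel
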